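import Pool.Agent.P8H64.Pile.Kill

set_option autoImplicit false

/-!
# Free factors
-/

namespace Pool.Agent.P8H64.Pile

open Pool.Agent.Q24.PF Pool.Agent.Helper122.Cuts

/-- The homomorphism `ι : F → G` is the profinite completion of `F` (where `G` is profinite): it has
a dense image, and all homomorphisms of `F` to finite groups extend to homomorphisms of `G` with open
kernels. -/
structure IsProfiniteCompletion {F G : Type} [Group F] [Group G] [TopologicalSpace G]
    (ι : F →* G) : Prop where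
  dense : DenseRange ι
  extend : ∀ (Q : Type) [Group Q] [Finite Q] (φ : F →* Q),
    ∃ ψ : G →* Q, (∀ f, ψ (ι f) = φ f) ∧ IsOpen (ψ.ker : Set G)

/-- `A` is a free factor of `F`: `F = A * B` for a subgroup `B`. -/
def IsFreeFactor {F : Type} [Group F] (A : Subgroup F) : Prop :=
  ∃ B : Subgroup F, Function.Bijective (Monoid.Coprod.lift A.subtype B.subtype)

theorem isFreeFactor_of_bas {Φ : Type} [Group Φ] {S T : Set Φ} {H : Subgroup Φ} (hS : Bas S H)
    (hST : Bas (S ∪ T) (⊤ : Subgroup Φ)) : IsFreeFactor H := by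
  classical
  obtain ⟨e2, he2⟩ := hST.retr
  have hjH : ∀ s ∈ S, s ∈ H := by
    intro s hs
    rw [← hS.2]
    exact Subgroup.subset_closure hs
  let K : Subgroup Φ := Subgroup.closure (T \ S)
  have hKT : ∀ s ∈ T, s ∉ S → s ∈ K := fun s hs hs2 => Subgroup.subset_closure ⟨hs, hs2⟩
  refine ⟨K, ?_⟩
  let C := Monoid.Coprod H K
  let g0 : ↥(S ∪ T) → C := fun s =>
    if hs : (s : Φ) ∈ S then Monoid.Coprod.inl ⟨s, hjH _ hs⟩
    else Monoid.Coprod.inr ⟨s, hKT _ (s.2.resolve_left hs) hs⟩
  let Ψ : Φ →* C := ((FreeGroup.lift g0).comp e2.toMonoidHom).comp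
    (Subgroup.topEquiv : (⊤ : Subgroup Φ) ≃* Φ).symm.toMonoidHom
  have hΨ : ∀ s (hs : s ∈ S ∪ T), Ψ s = g0 ⟨s, hs⟩ := by
    intro s hs
    change (FreeGroup.lift g0) (e2 ⟨s, Subgroup.mem_top s⟩) = _
    have := he2 ⟨s, hs⟩ (Subgroup.mem_top s)
    rw [this, FreeGroup.lift_apply_of]
  let l : C →* Φ := Monoid.Coprod.lift H.subtype K.subtype
  have hlΨ : ∀ f, l (Ψ f) = f := by
    have : l.comp Ψ = MonoidHom.id Φ := by
      apply MonoidHom.eq_of_eqOn_dense hST.2
      intro s hs
      rw [MonoidHom.comp_apply, hΨ s hs]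
      simp only [g0]
      split_ifs with h
      · exact Monoid.Coprod.lift_apply_inl _ _ _
      · exact Monoid.Coprod.lift_apply_inr _ _ _
    exact fun f => DFunLike.congr_fun this f
  have hΨH : ∀ f, ∀ hf : f ∈ H, Ψ f = Monoid.Coprod.inl ⟨f, hf⟩ := by
    intro f hf
    have hf2 : f ∈ Subgroup.closure S := by rwa [hS.2]
    induction hf2 using Subgroup.closure_induction with
    | mem s hs =>
      rw [hΨ s (Or.inl hs)]
      simp only [g0]
      rw [dif_pos hs]
    | one =>
      rw [map_one]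
      have : (⟨1, hf⟩ : H) = 1 := rfl
      rw [this, map_one]
    | mul a b ha hb iha ihb =>
      have ha' : a ∈ H := by rwa [hS.2] at ha
      have hb' : b ∈ H := by rwa [hS.2] at hb
      rw [map_mul, iha ha', ihb hb', ← map_mul]
      rfl
    | inv a ha iha =>
      have ha' : a ∈ H := by rwa [hS.2] at ha
      rw [map_inv, iha ha', ← map_inv]
      rfl
  have hΨK : ∀ f, ∀ hf : f ∈ K, Ψ f = Monoid.Coprod.inr ⟨f, hf⟩ := by
    intro f hf
    have hf2 : f ∈ Subgroup.closure (T \ S) := hf
    induction hf2 using Subgroup.closure_induction with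
    | mem s hs =>
      rw [hΨ s (Or.inr hs.1)]
      simp only [g0]
      rw [dif_neg hs.2]
    | one =>
      rw [map_one]
      have : (⟨1, hf⟩ : K) = 1 := rfl
      rw [this, map_one]
    | mul a b ha hb iha ihb =>
      rw [map_mul, iha ha, ihb hb, ← map_mul]
      rfl
    | inv a ha iha =>
      rw [map_inv, iha ha, ← map_inv]
      rfl
  have hΨl : ∀ c, Ψ (l c) = c := by
    have : Ψ.comp l = MonoidHom.id C := by
      apply Monoid.Coprod.hom_ext
      · apply MonoidHom.ext
        intro h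
        change Ψ (l (Monoid.Coprod.inl h)) = Monoid.Coprod.inl h
        have h1 : l (Monoid.Coprod.inl h) = h := Monoid.Coprod.lift_apply_inl _ _ _
        rw [h1]
        exact hΨH h h.2
      · apply MonoidHom.ext
        intro h
        change Ψ (l (Monoid.Coprod.inr h)) = Monoid.Coprod.inr h
        have h1 : l (Monoid.Coprod.inr h) = h := Monoid.Coprod.lift_apply_inr _ _ _
        rw [h1]
        exact hΨK h h.2
    exact fun c => DFunLike.congr_fun this c
  exact ⟨Function.LeftInverse.injective hΨl, Function.RightInverse.surjective hlΨ⟩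

theorem IsFreeFactor.map {Φ F : Type} [Group Φ] [Group F] (e : Φ ≃* F) {A : Subgroup Φ}
    (hA : IsFreeFactor A) : IsFreeFactor (A.map e.toMonoidHom) := by
  obtain ⟨B, hB⟩ := hA
  refine ⟨B.map e.toMonoidHom, ?_⟩
  let e1 : A ≃* A.map e.toMonoidHom := A.equivMapOfInjective e.toMonoidHom e.injective
  let e2 : B ≃* B.map e.toMonoidHom := B.equivMapOfInjective e.toMonoidHom e.injective
  let m : Monoid.Coprod A B ≃* Monoid.Coprod (A.map e.toMonoidHom) (B.map e.toMonoidHom) :=
    MulEquiv.coprodCongr e1 e2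
  have h1 : (Monoid.Coprod.lift (A.map e.toMonoidHom).subtype (B.map e.toMonoidHom).subtype).comp
      m.toMonoidHom = e.toMonoidHom.comp (Monoid.Coprod.lift A.subtype B.subtype) := by
    apply Monoid.Coprod.hom_ext
    · apply MonoidHom.ext
      intro a
      simp [m]
      rfl
    · apply MonoidHom.ext
      intro a
      simp [m]
      rfl
  have h2 : ⇑(Monoid.Coprod.lift (A.map e.toMonoidHom).subtype (B.map e.toMonoidHom).subtype) =
      (e ∘ (Monoid.Coprod.lift A.subtype B.subtype)) ∘ m.symm := by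
    funext c
    obtain ⟨d, rfl⟩ := m.surjective c
    have := DFunLike.congr_fun h1 d
    simp only [Function.comp_apply, MulEquiv.symm_apply_apply]
    exact this
  rw [h2]
  exact (e.bijective.comp hB).comp m.symm.bijective

theorem fp_of_isFreeFactor {Φ : Type} [Group Φ] {A B : Subgroup Φ}
    (h : Function.Bijective (Monoid.Coprod.lift A.subtype B.subtype)) : FP ⊤ A B := by
  refine ⟨h.1, ?_⟩
  have h1 : (Monoid.Coprod.lift A.subtype B.subtype).range = ⊤ :=
    MonoidHom.range_eq_top.2 h.2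
  rwa [Monoid.Coprod.range_lift, Subgroup.range_subtype, Subgroup.range_subtype] at h1

/-- the kernel of a nonzero derivation lies in a proper free factor -/
theorem exists_factor_of_der {α : Type} [Finite α] (g : FreeGroup α)
    (D : FreeGroup α → (FreeGroup α →₀ ZMod 2)) (hD : IsDer D) (hDg : D g = 0)
    (hne : ∃ f, D f ≠ 0) : ∃ A : Subgroup (FreeGroup α), IsFreeFactor A ∧ g ∈ A ∧ A ≠ ⊤ := by
  have hp : Fact (Nat.Prime 2) := ⟨Nat.prime_two⟩
  have hKfg : (⊤ : Subgroup (FreeGroup α)).FG :=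
    (Group.fg_iff_subgroup_fg _).1 (Group.fg_of_surjective
      (f := (Subgroup.topEquiv : (⊤ : Subgroup (FreeGroup α)) ≃* FreeGroup α).symm.toMonoidHom)
      (Subgroup.topEquiv : (⊤ : Subgroup (FreeGroup α)) ≃* FreeGroup α).symm.surjective)
  have hfree : ∀ K : Subgroup (FreeGroup α), K.FG → ∃ S, Bas S K := by
    intro K _
    exact exists_bas_of_free inferInstance
  obtain ⟨_, T, hT⟩ := ker_factor (tf_free α) (lip_free α 2) (freeAct_self (FreeGroup α)) hfree
    hD _ ⊤ hKfg rfl
  rw [inf_top_eq] at hT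
  obtain ⟨S, hS⟩ := exists_bas_of_free (K := dker D hD) inferInstance
  refine ⟨dker D hD, isFreeFactor_of_bas hS (hT S hS), hDg, ?_⟩
  intro h
  obtain ⟨f, hf⟩ := hne
  apply hf
  have : f ∈ dker D hD := by
    rw [h]
    exact Subgroup.mem_top f
  exact this

/-- **Proper point stabilizers of projective piles over the profinite completion of a free group
meet the free group in elements of proper free factors.** -/
theorem main (F : Type) [Group F] [IsFreeGroup F] [Group.FG F] (G : Type) [Group G]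
    [TopologicalSpace G] [IsTopologicalGroup G] [CompactSpace G] [T2Space G]
    [TotallyDisconnectedSpace G] (ι : F →* G) (hι : IsProfiniteCompletion ι)
    (T : Type) [TopologicalSpace T] [CompactSpace T] [T2Space T] [TotallyDisconnectedSpace T]
    (𝒢 : Pile G T) (h𝒢 : IsProjective 𝒢) (g : F) (t : T) (hg : ι g ∈ 𝒢.stab t)
    (ht : 𝒢.stab t ≠ ⊤) : ∃ A : Subgroup F, IsFreeFactor A ∧ g ∈ A ∧ A ≠ ⊤ := by
  have hp : Fact (Nat.Prime 2) := ⟨Nat.prime_two⟩
  let X := IsFreeGroup.Generators F
  let e : F ≃* FreeGroup X := IsFreeGroup.toFreeGroup F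
  have hX : Finite X := finite_of_fg (G := F) inferInstance e
  let j : FreeGroup X →* G := ι.comp e.symm.toMonoidHom
  have hj : ∀ (Q : Type) [Group Q] [Finite Q] (φ : FreeGroup X →* Q),
      ∃ ψ : G →* Q, (∀ f, ψ (j f) = φ f) ∧ IsOpen (ψ.ker : Set G) := by
    intro Q _ _ φ
    obtain ⟨ψ, hψ, hψo⟩ := hι.extend Q (φ.comp e.toMonoidHom)
    refine ⟨ψ, fun f => ?_, hψo⟩
    change ψ (ι (e.symm f)) = φ f
    rw [hψ]
    change φ (e (e.symm f)) = φ f
    rw [e.apply_symm_apply]
  have hd : DenseRange j := by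
    have h1 : Set.range j = Set.range ι := by
      ext y
      constructor
      · rintro ⟨f, rfl⟩
        exact ⟨e.symm f, rfl⟩
      · rintro ⟨f, rfl⟩
        refine ⟨e f, ?_⟩
        change ι (e.symm (e f)) = ι f
        rw [e.symm_apply_apply]
    have h2 := hι.dense
    unfold DenseRange at h2 ⊢
    rwa [h1]
  obtain ⟨D, hD, hDg, hne⟩ := exists_killing_der (p := 2) 𝒢 h𝒢 j hd hj t ht (e g) (by
    change ι (e.symm (e g)) ∈ _
    rwa [e.symm_apply_apply])
  obtain ⟨A, hA, hgA, hAne⟩ := exists_factor_of_der (e g) D hD hDg hne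
  refine ⟨A.map e.symm.toMonoidHom, hA.map e.symm, ⟨e g, hgA, e.symm_apply_apply g⟩, ?_⟩
  intro h
  apply hAne
  rw [eq_top_iff]
  intro y _
  have h1 : e.symm y ∈ A.map e.symm.toMonoidHom := by
    rw [h]
    exact Subgroup.mem_top _
  obtain ⟨z, hz, hz2⟩ := h1
  have : z = y := e.symm.injective hz2
  rwa [← this]

end Pool.Agent.P8H64.Pile
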