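import Pool.Agent.P8H64.Pile.Factor

set_option autoImplicit false

/-!
# A projective pile with a global fixed point
-/

namespace Pool.Agent.P8H64.Pile

open Pool.Agent.Q24.PF Pool.Agent.Helper122.Cuts CategoryTheory

section fixed

variable (G : Type) [Group G] [TopologicalSpace G] [IsTopologicalGroup G]

/-- the pile `(G, {*} ⊔ G)`: a fixed point and a regular orbit -/
def fixedPile : Pile G (Unit ⊕ G) where
  act x g := Sum.map id (fun y => y * g) x
  act_one := by
    rintro (x | y)
    · rfl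
    · exact congrArg Sum.inr (mul_one y)
  act_mul := by
    rintro (x | y) g h
    · rfl
    · exact congrArg Sum.inr (mul_assoc y g h).symm
  cont := by
    have h1 : (fun x : (Unit ⊕ G) × G => Sum.map id (fun y => y * x.2) x.1) =
        (Sum.map Prod.fst (fun y : G × G => y.1 * y.2)) ∘
          (Homeomorph.sumProdDistrib : (Unit ⊕ G) × G ≃ₜ (Unit × G) ⊕ (G × G)) := by
      funext x
      obtain ⟨x | y, g⟩ := x
      · rfl
      · rfl
    rw [h1]
    exact (Continuous.sumMap continuous_fst continuous_mul).comp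
      (Homeomorph.sumProdDistrib : (Unit ⊕ G) × G ≃ₜ (Unit × G) ⊕ (G × G)).continuous

theorem fixedPile_stab : (fixedPile G).stab (Sum.inl ()) = ⊤ := by
  rw [eq_top_iff]
  intro g _
  rfl

theorem fixedPile_projective : IsProjective (fixedPile G) := by
  intro A X B Y _ _ _ _ _ _ _ _ _ _ _ _ _ _ 𝒜 ℬ φ α hepi hrig
  classical
  obtain ⟨hα1, hα2, hα3⟩ := hepi
  obtain ⟨hr1, hr2, hr3⟩ := hrig
  obtain ⟨y0, hy0⟩ := hα2 (φ.map (Sum.inl ()))
  obtain ⟨y1, hy1⟩ := hα2 (φ.map (Sum.inr 1))
  have hb := hr1 y0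
  have hφ : ∀ g, φ.hom g ∈ 𝒜.stab (α.map y0) := by
    intro g
    rw [hy0, Pile.mem_stab]
    exact (φ.equivariant (Sum.inl ()) g).symm
  choose γ hγ1 hγ2 using fun g => hb.surjOn (hφ g)
  let γh : G →* B := MonoidHom.mk' γ (by
    intro a b
    apply hb.injOn (hγ1 _) ((ℬ.stab y0).mul_mem (hγ1 a) (hγ1 b))
    rw [hγ2, map_mul, map_mul, hγ2, hγ2])
  have hγh : ∀ g, γh g = γ g := fun g => rfl
  have hγc : Continuous γh := by
    rw [continuous_discrete_rng]
    intro b
    by_cases hbm : b ∈ ℬ.stab y0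
    · have e : γh ⁻¹' {b} = φ.hom ⁻¹' {α.hom b} := by
        ext g
        rw [Set.mem_preimage, Set.mem_preimage, Set.mem_singleton_iff, Set.mem_singleton_iff, hγh,
          ← hγ2 g]
        constructor
        · intro h
          rw [h]
        · intro h
          exact hb.injOn (hγ1 g) hbm h
      rw [e]
      exact (isOpen_discrete _).preimage φ.hom_cont
    · have e : γh ⁻¹' {b} = ∅ := by
        ext g
        rw [Set.mem_preimage, Set.mem_singleton_iff, hγh]
        simp only [Set.mem_empty_iff_false, iff_false]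
        intro h
        apply hbm
        rw [← h]
        exact hγ1 g
      rw [e]
      exact isOpen_empty
  let γm : Unit ⊕ G → Y := Sum.elim (fun _ => y0) (fun x => ℬ.act y1 (γh x))
  refine ⟨⟨γh, γm, hγc, ?_, ?_⟩, fun g => hγ2 g, ?_⟩
  · apply Continuous.sumElim continuous_const
    have h1 : Continuous (fun b : B => ℬ.act y1 b) := continuous_of_discreteTopology
    exact h1.comp hγc
  · rintro (x | x) g
    · exact (((ℬ.mem_stab y0 _).1 (hγ1 g))).symm
    · change ℬ.act y1 (γh (x * g)) = ℬ.act (ℬ.act y1 (γh x)) (γh g)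
      rw [map_mul, ℬ.act_mul]
  · rintro (x | x)
    · exact hy0
    · change α.map (ℬ.act y1 (γh x)) = φ.map (Sum.inr x)
      rw [α.equivariant, hy1, hγh, hγ2, ← φ.equivariant]
      congr 1
      exact congrArg Sum.inr (one_mul x)

end fixed

section completion

/-- projection of the profinite completion to a finite quotient -/
noncomputable def qproj (Γ : Type) [Group Γ] (H : FiniteIndexNormalSubgroup (GrpCat.of Γ)) :
    ProfiniteGrp.ProfiniteCompletion.completion (GrpCat.of Γ) →* (Γ ⧸ H.toSubgroup) where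
  toFun x := x.1 H
  map_one' := rfl
  map_mul' _ _ := rfl

theorem qproj_open (Γ : Type) [Group Γ] (H : FiniteIndexNormalSubgroup (GrpCat.of Γ))
    (s : Set (Γ ⧸ H.toSubgroup)) : IsOpen ((qproj Γ H) ⁻¹' s) := by
  have h1 : Continuous (fun x : ProfiniteGrp.ProfiniteCompletion.completion (GrpCat.of Γ) =>
      x.1 H) := (continuous_apply H).comp continuous_subtype_val
  exact h1.isOpen_preimage s (@isOpen_discrete _ ⊥ (discreteTopology_bot _) s)

/-- Mathlib's profinite completion is one -/
theorem isProfiniteCompletion_eta (Γ : Type) [Group Γ] :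
    IsProfiniteCompletion (ProfiniteGrp.ProfiniteCompletion.eta (GrpCat.of Γ)).hom := by
  refine ⟨ProfiniteGrp.ProfiniteCompletion.denseRange (GrpCat.of Γ), ?_⟩
  intro Q _ _ φ
  let H : FiniteIndexNormalSubgroup (GrpCat.of Γ) :=
    { toSubgroup := φ.ker
      isNormal' := inferInstance
      isFiniteIndex' := Subgroup.finiteIndex_ker _ }
  refine ⟨(QuotientGroup.kerLift φ).comp (qproj Γ H), fun γ => rfl, ?_⟩
  exact qproj_open Γ H ((QuotientGroup.kerLift φ) ⁻¹' {1})

theorem exists_profiniteCompletion (Γ : Type) [Group Γ] :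
    ∃ (G : Type) (_ : Group G) (_ : TopologicalSpace G) (_ : IsTopologicalGroup G)
      (_ : CompactSpace G) (_ : T2Space G) (_ : TotallyDisconnectedSpace G) (ι : Γ →* G),
      IsProfiniteCompletion ι :=
  ⟨ProfiniteGrp.ProfiniteCompletion.completion (GrpCat.of Γ), inferInstance, inferInstance,
    inferInstance, inferInstance, inferInstance, inferInstance,
    (ProfiniteGrp.ProfiniteCompletion.eta (GrpCat.of Γ)).hom, isProfiniteCompletion_eta Γ⟩

end completion

section commutator

theorem card_hom_bas {Φ : Type} [Group Φ] {S : Set Φ} {A : Subgroup Φ} (hS : Bas S A)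
    (hA : A.FG) : Finite S ∧ hN (Multiplicative (ZMod 2)) A = 2 ^ Nat.card S := by
  obtain ⟨e, -⟩ := hS.retr
  have hf : Finite S := finite_of_fg ((Group.fg_iff_subgroup_fg A).2 hA) e
  refine ⟨hf, ?_⟩
  unfold hN
  have e1 : (A →* Multiplicative (ZMod 2)) ≃ (S → Multiplicative (ZMod 2)) :=
    (MulEquiv.monoidHomCongrLeftEquiv e).trans FreeGroup.lift.symm
  rw [Nat.card_congr e1, Nat.card_fun]
  congr 1
  change Nat.card (ZMod 2) = 2
  rw [Nat.card_zmod]

/-- the commutator `a b a⁻¹ b⁻¹` of the basis elements -/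
def comm2 : FreeGroup (Fin 2) :=
  FreeGroup.of 0 * FreeGroup.of 1 * (FreeGroup.of 0)⁻¹ * (FreeGroup.of 1)⁻¹

/-- the commutator of the basis elements lies in no proper free factor -/
theorem eq_top_of_commutator_mem (A : Subgroup (FreeGroup (Fin 2))) (hA : IsFreeFactor A)
    (h : comm2 ∈ A) : A = ⊤ := by
  obtain ⟨B, hB⟩ := hA
  have hFP := fp_of_isFreeFactor hB
  have hfg : (⊤ : Subgroup (FreeGroup (Fin 2))).FG :=
    (Group.fg_iff_subgroup_fg _).1 (Group.fg_of_surjective
      (f := (Subgroup.topEquiv : (⊤ : Subgroup (FreeGroup (Fin 2))) ≃* _).symm.toMonoidHom)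
      (Subgroup.topEquiv : (⊤ : Subgroup (FreeGroup (Fin 2))) ≃* _).symm.surjective)
  have hAfg := hFP.fg_left hfg
  have hBfg := hFP.fg_right hfg
  obtain ⟨S, hS⟩ := exists_bas_of_free (K := A) inferInstance
  obtain ⟨T, hT⟩ := exists_bas_of_free (K := B) inferInstance
  obtain ⟨hSf, hSc⟩ := card_hom_bas hS hAfg
  obtain ⟨hTf, hTc⟩ := card_hom_bas hT hBfg
  have hle := hFP.card_mul_le (P := Multiplicative (ZMod 2)) hfg
  have h4 : hN (Multiplicative (ZMod 2)) (⊤ : Subgroup (FreeGroup (Fin 2))) = 4 := by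
    unfold hN
    have e1 : ((⊤ : Subgroup (FreeGroup (Fin 2))) →* Multiplicative (ZMod 2)) ≃
        (Fin 2 → Multiplicative (ZMod 2)) :=
      (MulEquiv.monoidHomCongrLeftEquiv Subgroup.topEquiv).trans FreeGroup.lift.symm
    rw [Nat.card_congr e1, Nat.card_fun]
    have : Nat.card (Multiplicative (ZMod 2)) = 2 := by
      change Nat.card (ZMod 2) = 2
      rw [Nat.card_zmod]
    rw [this]
    simp
  rw [hSc, hTc, h4, ← pow_add] at hle
  have hle2 : Nat.card S + Nat.card T ≤ 2 := by
    have : (2 : ℕ) ^ (Nat.card S + Nat.card T) ≤ 2 ^ 2 := hle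
    exact (Nat.pow_le_pow_iff_right (by norm_num)).1 this
  by_contra hne
  have hT0 : T.Nonempty := by
    by_contra h0
    rw [Set.not_nonempty_iff_eq_empty] at h0
    have : B = ⊥ := by
      rw [← hT.2, h0, Subgroup.closure_empty]
    apply hne
    rw [← hFP.2, this, sup_bot_eq]
  have hT1 : 1 ≤ Nat.card T := by
    have := hT0.to_subtype
    exact Nat.card_pos
  have hS1 : Nat.card S ≤ 1 := by omega
  have hSs : Subsingleton S := Finite.card_le_one_iff_subsingleton.1 hS1
  have hAc : ∀ x ∈ A, ∀ y ∈ A, x * y = y * x := by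
    have h1 : ∀ x ∈ Subgroup.closure S, ∀ y ∈ Subgroup.closure S, x * y = y * x := by
      intro x hx y hy
      have : ∀ a ∈ S, ∀ b ∈ S, a * b = b * a := by
        intro a ha b hb
        have h0 : (⟨a, ha⟩ : S) = ⟨b, hb⟩ := Subsingleton.elim _ _
        have h1 : a = b := congrArg Subtype.val h0
        rw [h1]
      have h2 := Subgroup.isMulCommutative_closure this
      exact congrArg Subtype.val (mul_comm' (⟨x, hx⟩ : Subgroup.closure S) ⟨y, hy⟩)
    rwa [hS.2] at h1
  obtain ⟨e, he⟩ := hFP.equiv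
  let r : FreeGroup (Fin 2) →* A :=
    ((Monoid.Coprod.lift (MonoidHom.id A) (1 : B →* A)).comp e.symm.toMonoidHom).comp
      (Subgroup.topEquiv : (⊤ : Subgroup (FreeGroup (Fin 2))) ≃* _).symm.toMonoidHom
  have hr : ∀ a : A, r a = a := by
    intro a
    change (Monoid.Coprod.lift (MonoidHom.id A) (1 : B →* A))
      (e.symm ⟨(a : FreeGroup (Fin 2)), Subgroup.mem_top _⟩) = a
    have h1 : e.symm ⟨(a : FreeGroup (Fin 2)), Subgroup.mem_top _⟩ = Monoid.Coprod.inl a := by
      rw [MulEquiv.symm_apply_eq]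
      apply Subtype.ext
      rw [he, Monoid.Coprod.lift_apply_inl]
      rfl
    rw [h1]
    exact Monoid.Coprod.lift_apply_inl _ _ _
  have h1 : comm2 = 1 := by
    have h2 : ((r comm2 : A) : FreeGroup (Fin 2)) = comm2 := congrArg Subtype.val (hr ⟨_, h⟩)
    have h3 : ((r (FreeGroup.of 0) : A) : FreeGroup (Fin 2)) * (r (FreeGroup.of 1) : A) =
        (r (FreeGroup.of 1) : A) * (r (FreeGroup.of 0) : A) :=
      hAc _ (r _).2 _ (r _).2
    rw [← h2]
    unfold comm2
    rw [map_mul, map_mul, map_mul, map_inv, map_inv, Subgroup.coe_mul, Subgroup.coe_mul,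
      Subgroup.coe_mul, Subgroup.coe_inv, Subgroup.coe_inv, h3]
    group
  have h2 : comm2.toWord = (1 : FreeGroup (Fin 2)).toWord := by rw [h1]
  revert h2
  decide

theorem comm2_ne_one : comm2 ≠ 1 := by
  intro h1
  have h2 : comm2.toWord = (1 : FreeGroup (Fin 2)).toWord := by rw [h1]
  revert h2
  decide

end commutator

end Pool.Agent.P8H64.Pile
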