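import Pool.Agent.Q24.PF.Der

set_option autoImplicit false

/-!
# Linear systems over finite modules of a free group

Let `g` be an element of the free group such that no nonzero derivation into the group algebra
kills `g`. Then over every finite right module `A` the system `m * ∂_i g = a_i` (for all `i`) has a
solution `m` in a finite module `W` which contains `A`.
-/

namespace Pool.Agent.P8H64.Pile

open Pool.Agent.Q24.PF Pool.Agent.Helper122.Cuts

section

variable {α : Type} {p : ℕ}

/-- `u * x` for `x` in the group algebra -/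
noncomputable def LC [Fact p.Prime] {W : Type} [AddCommGroup W] [Module (ZMod p) W]
    (Y : α → (W ≃ₗ[ZMod p] W)) (u : W) : (FreeGroup α →₀ ZMod p) →ₗ[ZMod p] W :=
  Finsupp.linearCombination (ZMod p) (fun g => (ract Y g).unop u)

variable [Fact p.Prime]

theorem LC_single {W : Type} [AddCommGroup W] [Module (ZMod p) W]
    (Y : α → (W ≃ₗ[ZMod p] W)) (u : W) (h : FreeGroup α) (c : ZMod p) :
    LC Y u (Finsupp.single h c) = c • (ract Y h).unop u := by
  unfold LC
  rw [Finsupp.linearCombination_single]

theorem LC_tl {W : Type} [AddCommGroup W] [Module (ZMod p) W]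
    (Y : α → (W ≃ₗ[ZMod p] W)) (u : W) (f : FreeGroup α) (x : FreeGroup α →₀ ZMod p) :
    LC Y u (tl f x) = LC Y ((ract Y f).unop u) x := by
  unfold LC tl
  rw [Finsupp.linearCombination_mapDomain]
  congr 2
  funext g
  exact ract_mul Y f g u

theorem LC_rt {W : Type} [AddCommGroup W] [Module (ZMod p) W]
    (Y : α → (W ≃ₗ[ZMod p] W)) (u : W) (f : FreeGroup α) (x : FreeGroup α →₀ ZMod p) :
    LC Y u (rt f x) = (ract Y f).unop (LC Y u x) := by
  have : LC Y u ∘ₗ (rt f).toLinearMap = (ract Y f).unop.toLinearMap ∘ₗ LC Y u := by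
    apply Finsupp.lhom_ext
    intro h c
    simp only [LinearMap.comp_apply, LinearEquiv.coe_coe]
    rw [rt_single, LC_single, LC_single, map_smul, ract_mul]
  exact LinearMap.congr_fun this x

theorem LC_map {W V : Type} [AddCommGroup W] [Module (ZMod p) W] [AddCommGroup V] [Module (ZMod p) V]
    (Y : α → (W ≃ₗ[ZMod p] W)) (Z : α → (V ≃ₗ[ZMod p] V)) (e : V →ₗ[ZMod p] W)
    (he : ∀ i v, Y i (e v) = e (Z i v)) (f : FreeGroup α) :
    ∀ v, (ract Y f).unop (e v) = e ((ract Z f).unop v) := by
  induction f using FreeGroup.induction_on with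
  | C1 =>
    intro v
    rw [map_one, map_one]
    rfl
  | of i =>
    intro v
    unfold ract
    rw [FreeGroup.lift_apply_of, FreeGroup.lift_apply_of]
    exact he i v
  | inv_of i _ =>
    intro v
    unfold ract
    rw [map_inv, map_inv, FreeGroup.lift_apply_of, FreeGroup.lift_apply_of]
    change (Y i).symm (e v) = e ((Z i).symm v)
    rw [LinearEquiv.symm_apply_eq, he, LinearEquiv.apply_symm_apply]
  | mul a b ha hb =>
    intro v
    rw [ract_mul, ract_mul, ha, hb]

theorem IsDer.inv_val {D : FreeGroup α → (FreeGroup α →₀ ZMod p)} (h : IsDer D) (f : FreeGroup α) :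
    D f⁻¹ = -tl f⁻¹ (D f) := by
  have h1 := h f⁻¹ f
  rw [inv_mul_cancel, h.one] at h1
  exact eq_neg_of_add_eq_zero_left h1.symm

/-- a derivation is determined by its values at the basis -/
theorem der_ext {D D' : FreeGroup α → (FreeGroup α →₀ ZMod p)} (h : IsDer D) (h' : IsDer D')
    (hv : ∀ i, D (FreeGroup.of i) = D' (FreeGroup.of i)) (f : FreeGroup α) : D f = D' f := by
  induction f using FreeGroup.induction_on with
  | C1 => rw [h.one, h'.one]
  | of i => exact hv i
  | inv_of i _ => rw [IsDer.inv_val h, IsDer.inv_val h', hv]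
  | mul a b ha hb => rw [h, h', ha, hb]

/-- **Solving linear systems in finite overmodules.** -/
theorem overmodule [Finite α] (g : FreeGroup α)
    (hinj : ∀ D : FreeGroup α → (FreeGroup α →₀ ZMod p), IsDer D → D g = 0 → ∀ f, D f = 0)
    [DecidableEq α] (D : α → FreeGroup α → (FreeGroup α →₀ ZMod p)) (hD : ∀ i, IsDer (D i))
    (hDv : ∀ i l, D i (FreeGroup.of l) = if l = i then Finsupp.single 1 1 else 0)
    (A : Type) [AddCommGroup A] [Module (ZMod p) A] [Finite A] (Z : α → (A ≃ₗ[ZMod p] A))
    (a : α → A) :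
    ∃ (W : Type) (_ : AddCommGroup W) (_ : Module (ZMod p) W) (_ : Finite W)
      (Y : α → (W ≃ₗ[ZMod p] W)) (e : A →ₗ[ZMod p] W) (m : W), Function.Injective e ∧
      (∀ i x, Y i (e x) = e (Z i x)) ∧ ∀ i, LC Y m (D i g) = e (a i) := by
  classical
  cases nonempty_fintype α
  let k := ZMod p
  let M := A × (FreeGroup α →₀ ZMod p)
  let P : Submodule k M :=
    { carrier := {x | ∃ E, IsDer E ∧ x.1 = ∑ i, LC Z (a i) (E (FreeGroup.of i)) ∧ x.2 = -E g}
      add_mem' := by
        rintro x y ⟨E, hE, hx1, hx2⟩ ⟨E', hE', hy1, hy2⟩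
        refine ⟨_, IsDer.add hE hE', ?_, ?_⟩
        · rw [Prod.fst_add, hx1, hy1, ← Finset.sum_add_distrib]
          refine Finset.sum_congr rfl fun i _ => ?_
          rw [map_add]
        · rw [Prod.snd_add, hx2, hy2, neg_add]
      zero_mem' := ⟨_, isDer_zero, by simp, by simp⟩
      smul_mem' := by
        rintro c x ⟨E, hE, hx1, hx2⟩
        refine ⟨_, IsDer.smul hE c, ?_, ?_⟩
        · rw [Prod.smul_fst, hx1, Finset.smul_sum]
          refine Finset.sum_congr rfl fun i _ => ?_
          rw [map_smul]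
        · rw [Prod.smul_snd, hx2, smul_neg] }
  have hP : ∀ x : M, x ∈ P ↔ ∃ E, IsDer E ∧ x.1 = ∑ i, LC Z (a i) (E (FreeGroup.of i)) ∧
      x.2 = -E g := fun x => Iff.rfl
  -- the action on `M`
  let R : FreeGroup α → (M ≃ₗ[k] M) := fun f => LinearEquiv.prodCongr (ract Z f).unop (rt f)
  have hR : ∀ f x, R f x = ((ract Z f).unop x.1, rt f x.2) := fun f x => rfl
  have hRP : ∀ f, ∀ x ∈ P, R f x ∈ P := by
    rintro f x ⟨E, hE, hx1, hx2⟩
    refine ⟨_, IsDer.rt hE f, ?_, ?_⟩
    · rw [hR, hx1, map_sum]
      refine Finset.sum_congr rfl fun i _ => ?_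
      rw [LC_rt]
    · rw [hR, hx2, map_neg]
  have hRm : ∀ f h x, R h (R f x) = R (f * h) x := by
    intro f h x
    rw [hR, hR, hR, ract_mul, rt_rt]
  have hR1 : ∀ x, R 1 x = x := by
    intro x
    rw [hR, map_one, rt_one]
    rfl
  have hRP' : ∀ f, P.map (R f).toLinearMap = P := by
    intro f
    apply le_antisymm
    · rintro _ ⟨x, hx, rfl⟩
      exact hRP f x hx
    · intro x hx
      refine ⟨R f⁻¹ x, hRP _ x hx, ?_⟩
      change R f (R f⁻¹ x) = x
      rw [hRm, inv_mul_cancel, hR1]
  let Q := M ⧸ P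
  let X : α → (Q ≃ₗ[k] Q) := fun i =>
    Submodule.Quotient.equiv P P (R (FreeGroup.of i)) (hRP' (FreeGroup.of i))
  have hX : ∀ i u, X i (Submodule.Quotient.mk u) =
      Submodule.Quotient.mk (R (FreeGroup.of i) u) := fun i u => rfl
  have hact : ∀ (f : FreeGroup α) (u : M),
      (ract X f).unop (Submodule.Quotient.mk u : Q) = Submodule.Quotient.mk (R f u) := by
    intro f
    induction f using FreeGroup.induction_on with
    | C1 =>
      intro u
      rw [map_one, hR1]
      rfl
    | of i =>
      intro u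
      unfold ract
      rw [FreeGroup.lift_apply_of]
      exact hX i u
    | inv_of i _ =>
      intro u
      unfold ract
      rw [map_inv, FreeGroup.lift_apply_of]
      change (X i).symm _ = _
      rw [LinearEquiv.symm_apply_eq, hX, hRm, inv_mul_cancel, hR1]
    | mul a b ha hb =>
      intro u
      rw [ract_mul, ha, hb, hRm]
  let e0 : A →ₗ[k] Q := P.mkQ ∘ₗ LinearMap.inl k A (FreeGroup α →₀ ZMod p)
  have he0 : ∀ x, e0 x = Submodule.Quotient.mk (x, 0) := fun x => rfl
  have he0i : Function.Injective e0 := by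
    rw [injective_iff_map_eq_zero]
    intro x hx
    rw [he0, Submodule.Quotient.mk_eq_zero] at hx
    obtain ⟨E, hE, h1, h2⟩ := hx
    have h3 : E g = 0 := by
      have : (0 : FreeGroup α →₀ ZMod p) = -E g := h2
      rw [eq_comm, neg_eq_zero] at this
      exact this
    have h4 := hinj E hE h3
    have h5 : x = ∑ i, LC Z (a i) (E (FreeGroup.of i)) := h1
    rw [h5]
    refine Finset.sum_eq_zero fun i _ => ?_
    rw [h4, map_zero]
  let m0 : Q := Submodule.Quotient.mk (0, Finsupp.single 1 1)
  let q : A ⊕ Unit → Q := Sum.elim e0 (fun _ => m0)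
  obtain ⟨n, hn⟩ : ∃ n : ℕ, ∀ (i : α), ∀ h ∈ (D i g).support, h.toWord.length ≤ n := by
    refine ⟨Finset.univ.sup (fun i => (D i g).support.sup
      (fun g : FreeGroup α => g.toWord.length)), ?_⟩
    intro i h hh
    have h1 := Finset.le_sup (f := fun g : FreeGroup α => g.toWord.length) hh
    have h3 := Finset.le_sup (f := fun i => (D i g).support.sup
      (fun g : FreeGroup α => g.toWord.length)) (Finset.mem_univ i)
    exact h1.trans h3
  obtain ⟨W, hW, Y, hqW, hY⟩ := complete X q (n + 1)
  have hWf : Finite W := Module.finite_of_finite k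
  let e : A →ₗ[k] W := LinearMap.codRestrict W e0 (fun x => hqW (Sum.inl x))
  have he : ∀ x, (e x : Q) = e0 x := fun x => rfl
  let m : W := ⟨m0, hqW (Sum.inr ())⟩
  refine ⟨W, inferInstance, inferInstance, hWf, Y, e, m, ?_, ?_, ?_⟩
  · intro x y hxy
    exact he0i (congrArg Subtype.val hxy)
  · intro i x
    have h1 := hY (Sum.inl x) [(i, true)] (by simp)
    apply Subtype.ext
    have h2 : ((wd Y [(i, true)] ⟨q (Sum.inl x), hqW (Sum.inl x)⟩ : W) : Q) = (Y i (e x) : W) := rfl
    rw [h2] at h1
    rw [h1, he, he0]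
    change X i (Submodule.Quotient.mk (x, 0)) = _
    rw [hX, hR]
    congr 1
  · intro i
    apply Subtype.ext
    have h1 : ∀ h : FreeGroup α, h.toWord.length ≤ n →
        (((ract Y h).unop m : W) : Q) = Submodule.Quotient.mk (0, Finsupp.single h 1) := by
      intro h hh
      have h1 := hY (Sum.inr ()) h.toWord (hh.trans (Nat.le_succ n))
      have e' : h = FreeGroup.mk h.toWord := FreeGroup.mk_toWord.symm
      have h2 : (ract Y h).unop m = wd Y h.toWord m := by
        conv_lhs => rw [e']
        exact ract_mk Y _ _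
      have h3 : (ract X h).unop m0 = wd X h.toWord m0 := by
        conv_lhs => rw [e']
        exact ract_mk X _ _
      have h4 : ((wd Y h.toWord m : W) : Q) = wd X h.toWord m0 := h1
      rw [h2, h4, ← h3, hact, hR, map_zero, rt_single, one_mul]
    have h2 : ((LC Y m (D i g) : W) : Q) = Submodule.Quotient.mk (0, D i g) := by
      let ψ : (FreeGroup α →₀ ZMod p) →ₗ[k] Q := P.mkQ ∘ₗ
        LinearMap.inr k A (FreeGroup α →₀ ZMod p)
      have hψ : ψ = Finsupp.linearCombination k (fun g => ψ (Finsupp.single g 1)) := by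
        apply Finsupp.lhom_ext
        intro g a
        rw [Finsupp.linearCombination_single, ← map_smul, Finsupp.smul_single, smul_eq_mul,
          mul_one]
      have h2 : (Submodule.Quotient.mk (0, D i g) : Q) = ψ (D i g) := rfl
      rw [h2, hψ]
      unfold LC
      rw [Finsupp.linearCombination_apply, Finsupp.linearCombination_apply, Finsupp.sum,
        Finsupp.sum, Submodule.coe_sum]
      refine Finset.sum_congr rfl fun h hh => ?_
      rw [Submodule.coe_smul, h1 h (hn i h hh)]
      rfl
    rw [h2, he, he0, ← sub_eq_zero, ← Submodule.Quotient.mk_sub, Submodule.Quotient.mk_eq_zero]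
    refine ⟨_, IsDer.neg (hD i), ?_, ?_⟩
    · rw [Prod.fst_sub, zero_sub]
      rw [Finset.sum_eq_single i]
      · rw [hDv, if_pos rfl, map_neg, LC_single, map_one, one_smul]
        rfl
      · intro l _ hl
        rw [hDv, if_neg hl, neg_zero, map_zero]
      · intro h
        exact absurd (Finset.mem_univ i) h
    · rw [Prod.snd_sub, sub_zero, neg_neg]

end

end Pool.Agent.P8H64.Pile
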