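import Pool.Agent.P8H64.Pile.Ext2
import Pool.Agent.P8H64.Pile.Over
import Pool.Agent.Q24.PF.Der3

set_option autoImplicit false

/-!
# Elements of proper point stabilizers are killed by derivations
-/

namespace Pool.Agent.P8H64.Pile

open Pool.Agent.Q24.PF Pool.Agent.Helper122.Cuts

section cocycle

variable {α : Type} {p : ℕ} [Fact p.Prime] {W : Type} [AddCommGroup W]
  [Module (ZMod p) W]

/-- the dual module, written multiplicatively -/
abbrev DN (p : ℕ) (W : Type) [AddCommGroup W] [Module (ZMod p) W] : Type :=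
  Multiplicative (Module.Dual (ZMod p) W)

/-- the semidirect product of the dual module and its automorphism group -/
abbrev SE (p : ℕ) (W : Type) [AddCommGroup W] [Module (ZMod p) W] : Type :=
  DN p W ⋊[MonoidHom.id (MulAut (DN p W))] MulAut (DN p W)

/-- the action on the dual module -/
def dact (Y : α → (W ≃ₗ[ZMod p] W)) : FreeGroup α →* MulAut (DN p W) :=
  MonoidHom.mk' (fun g =>
    AddEquiv.toMultiplicative ((ract Y g).unop.dualMap).toAddEquiv) (by
      intro a b
      refine MulEquiv.ext fun x => ?_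
      apply Multiplicative.toAdd.injective
      apply LinearMap.ext
      intro u
      change (Multiplicative.toAdd x) ((ract Y (a * b)).unop u) =
        (Multiplicative.toAdd x) ((ract Y b).unop ((ract Y a).unop u))
      rw [ract_mul])

theorem dact_apply (Y : α → (W ≃ₗ[ZMod p] W)) (g : FreeGroup α) (x : DN p W) (u : W) :
    Multiplicative.toAdd (dact Y g x) u = (Multiplicative.toAdd x) ((ract Y g).unop u) := rfl

variable {Y : α → (W ≃ₗ[ZMod p] W)} {τ : FreeGroup α →* SE p W}

theorem coc_mul (hτ : ∀ f, (τ f).right = dact Y f) (f g : FreeGroup α) (u : W) :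
    Multiplicative.toAdd (τ (f * g)).left u = Multiplicative.toAdd (τ f).left u +
      Multiplicative.toAdd (τ g).left ((ract Y f).unop u) := by
  rw [map_mul, SemidirectProduct.mul_left, hτ f, toAdd_mul, LinearMap.add_apply]
  rfl

theorem coc_one (u : W) : Multiplicative.toAdd (τ 1).left u = 0 := by
  rw [map_one, SemidirectProduct.one_left, toAdd_one]
  rfl

theorem coc_inv (hτ : ∀ f, (τ f).right = dact Y f) (f : FreeGroup α) (u : W) :
    Multiplicative.toAdd (τ f⁻¹).left u =
      - Multiplicative.toAdd (τ f).left ((ract Y f⁻¹).unop u) := by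
  have h1 := coc_mul hτ f⁻¹ f u
  rw [inv_mul_cancel, coc_one] at h1
  exact eq_neg_of_add_eq_zero_left h1.symm

/-- the values of a derivation are determined by the Fox derivatives -/
theorem coc_fox [DecidableEq α] (hτ : ∀ f, (τ f).right = dact Y f)
    (D : α → FreeGroup α → (FreeGroup α →₀ ZMod p)) (hD : ∀ i, IsDer (D i))
    (hDv : ∀ i l, D i (FreeGroup.of l) = if l = i then Finsupp.single 1 1 else 0)
    [Fintype α] (f : FreeGroup α) :
    ∀ u : W, Multiplicative.toAdd (τ f).left u =
      ∑ i : α, Multiplicative.toAdd (τ (FreeGroup.of i)).left (LC Y u (D i f)) := by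
  let Φ : FreeGroup α → W → ZMod p := fun f u =>
    ∑ i : α, Multiplicative.toAdd (τ (FreeGroup.of i)).left (LC Y u (D i f))
  have hΦm : ∀ f g u, Φ (f * g) u = Φ f u + Φ g ((ract Y f).unop u) := by
    intro f g u
    simp only [Φ]
    rw [← Finset.sum_add_distrib]
    refine Finset.sum_congr rfl fun i _ => ?_
    rw [hD i f g, map_add, map_add, LC_tl]
  have hΦ1 : ∀ u, Φ 1 u = 0 := by
    intro u
    simp only [Φ]
    refine Finset.sum_eq_zero fun i _ => ?_
    rw [(hD i).one, map_zero, map_zero]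
  have hΦo : ∀ l u, Φ (FreeGroup.of l) u = Multiplicative.toAdd (τ (FreeGroup.of l)).left u := by
    intro l u
    simp only [Φ]
    rw [Finset.sum_eq_single l]
    · rw [hDv, if_pos rfl, LC_single, one_smul, map_one]
      rfl
    · intro i _ hi
      rw [hDv, if_neg (fun h => hi h.symm), map_zero, map_zero]
    · intro h
      exact absurd (Finset.mem_univ l) h
  change ∀ u, _ = Φ f u
  induction f using FreeGroup.induction_on with
  | C1 =>
    intro u
    rw [coc_one, hΦ1]
  | of l =>
    intro u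
    rw [hΦo]
  | inv_of l _ =>
    intro u
    rw [coc_inv hτ, ← hΦo]
    have h2 := hΦm (FreeGroup.of l)⁻¹ (FreeGroup.of l) u
    rw [inv_mul_cancel, hΦ1] at h2
    exact (eq_neg_of_add_eq_zero_left h2.symm).symm
  | mul a b ha hb =>
    intro u
    rw [coc_mul hτ, hΦm, ha, hb]

end cocycle

theorem isClosed_stab {G T : Type} [Group G] [TopologicalSpace G] [TopologicalSpace T] [T2Space T]
    (𝒢 : Pile G T) (t : T) : IsClosed (𝒢.stab t : Set G) := by
  have hct : Continuous (fun g => 𝒢.act t g) := 𝒢.cont.comp (continuous_const.prodMk continuous_id)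
  exact isClosed_singleton.preimage hct

/-- a proper closed subgroup of a profinite group is contained in a proper open subgroup -/
theorem exists_open_subgroup {G : Type} [Group G] [TopologicalSpace G] [IsTopologicalGroup G]
    [CompactSpace G] [T2Space G] [TotallyDisconnectedSpace G] (L : Subgroup G)
    (hL : IsClosed (L : Set G)) (hne : L ≠ ⊤) :
    ∃ G₁ : Subgroup G, IsOpen (G₁ : Set G) ∧ L ≤ G₁ ∧ G₁ ≠ ⊤ := by
  obtain ⟨x, hx⟩ : ∃ x, x ∉ L := by
    by_contra h
    push Not at h
    exact hne (eq_top_iff.2 fun x _ => h x)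
  have hU : IsOpen ((fun y => x * y) ⁻¹' (L : Set G)ᶜ) :=
    hL.isOpen_compl.preimage (continuous_const_mul x)
  obtain ⟨N, hN⟩ := ProfiniteGrp.exist_openNormalSubgroup_sub_open_nhds_of_one hU (by
    change x * 1 ∉ L
    rwa [mul_one])
  refine ⟨L ⊔ N.toSubgroup, ?_, le_sup_left, ?_⟩
  · exact Subgroup.isOpen_mono (H₁ := N.toSubgroup) le_sup_right N.isOpen'
  · intro h
    have h1 : x ∈ L ⊔ N.toSubgroup := by
      rw [h]
      exact Subgroup.mem_top _
    have hn : N.toSubgroup.Normal := N.isNormal'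
    rw [Subgroup.mem_sup_of_normal_right] at h1
    obtain ⟨y, hy, z, hz, h2⟩ := h1
    have h3 : z⁻¹ ∈ (fun y => x * y) ⁻¹' (L : Set G)ᶜ := hN (N.toSubgroup.inv_mem hz)
    apply h3
    change x * z⁻¹ ∈ L
    rw [← h2, mul_inv_cancel_right]
    exact hy

theorem exists_killing_der {α : Type} [Finite α] {p : ℕ} [Fact p.Prime] {G T : Type} [Group G]
    [TopologicalSpace G] [IsTopologicalGroup G] [CompactSpace G] [T2Space G]
    [TotallyDisconnectedSpace G] [TopologicalSpace T] [CompactSpace T] [T2Space T]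
    [TotallyDisconnectedSpace T] (𝒢 : Pile G T) (h𝒢 : IsProjective 𝒢) (j : FreeGroup α →* G)
    (hd : DenseRange j)
    (hj : ∀ (Q : Type) [Group Q] [Finite Q] (φ : FreeGroup α →* Q),
      ∃ ψ : G →* Q, (∀ f, ψ (j f) = φ f) ∧ IsOpen (ψ.ker : Set G))
    (t : T) (ht : 𝒢.stab t ≠ ⊤) (g : FreeGroup α) (hg : j g ∈ 𝒢.stab t) :
    ∃ D : FreeGroup α → (FreeGroup α →₀ ZMod p), IsDer D ∧ D g = 0 ∧ ∃ f, D f ≠ 0 := by
  classical
  cases nonempty_fintype α
  by_contra hno
  have hinj : ∀ D : FreeGroup α → (FreeGroup α →₀ ZMod p), IsDer D → D g = 0 → ∀ f, D f = 0 := by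
    intro D hD hDg f
    by_contra h
    exact hno ⟨D, hD, hDg, f, h⟩
  let k := ZMod p
  obtain ⟨G₁, hG₁o, hG₁, hG₁ne⟩ := exists_open_subgroup (𝒢.stab t) (isClosed_stab 𝒢 t) ht
  have hfin : Finite (G ⧸ G₁) := Subgroup.quotient_finite_of_isOpen G₁ hG₁o
  let x0 : G ⧸ G₁ := ((1 : G) : G ⧸ G₁)
  have hx0 : ∀ h : G, h • x0 = x0 ↔ h ∈ G₁ := by
    intro h
    have e : h • x0 = ((h : G) : G ⧸ G₁) := by
      change ((h * 1 : G) : G ⧸ G₁) = _
      rw [mul_one]
    rw [e]
    change ((h : G) : G ⧸ G₁) = ((1 : G) : G ⧸ G₁) ↔ _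
    rw [QuotientGroup.eq, mul_one, G₁.inv_mem_iff]
  -- the finite module `A`
  let A := (G ⧸ G₁ → k)
  have hAf : Finite A := Pi.finite
  let Z : α → (A ≃ₗ[k] A) := fun i =>
    LinearEquiv.funCongrLeft k k (MulAction.toPerm (j (FreeGroup.of i)))
  have hZ : ∀ i (φ : A) x, Z i φ x = φ (j (FreeGroup.of i) • x) := fun i φ x => rfl
  have hZf : ∀ (f : FreeGroup α) (φ : A) x, (ract Z f).unop φ x = φ (j f • x) := by
    intro f
    induction f using FreeGroup.induction_on with
    | C1 =>
      intro φ x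
      rw [map_one, map_one, one_smul]
      rfl
    | of i =>
      intro φ x
      unfold ract
      rw [FreeGroup.lift_apply_of]
      exact hZ i φ x
    | inv_of i _ =>
      intro φ x
      unfold ract
      rw [map_inv, FreeGroup.lift_apply_of]
      change (Z i).symm φ x = _
      obtain ⟨ψ, rfl⟩ := (Z i).surjective φ
      rw [LinearEquiv.symm_apply_apply, hZ, map_inv, smul_inv_smul]
    | mul a b ha hb =>
      intro φ x
      rw [ract_mul, hb, ha, map_mul, mul_smul]
  -- a generator which moves the base point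
  obtain ⟨i0, hi0⟩ : ∃ i0, j (FreeGroup.of i0) • x0 ≠ x0 := by
    by_contra h
    push Not at h
    apply hG₁ne
    have h1 : ∀ f, j f ∈ G₁ := by
      intro f
      have h2 : f ∈ G₁.comap j := by
        have h3 : (⊤ : Subgroup (FreeGroup α)) ≤ G₁.comap j := by
          rw [← FreeGroup.closure_range_of, Subgroup.closure_le]
          rintro _ ⟨i, rfl⟩
          exact (hx0 _).1 (h i)
        exact h3 (Subgroup.mem_top f)
      exact h2
    rw [eq_top_iff]
    intro y _
    have h2 : y ∈ closure (Set.range j) := hd y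
    have h3 : closure (Set.range j) ⊆ (G₁ : Set G) := by
      apply closure_minimal
      · rintro _ ⟨f, rfl⟩
        exact h1 f
      · exact Subgroup.isClosed_of_isOpen G₁ hG₁o
    exact h3 h2
  let φ0 : A := Pi.single x0 1
  have hφ0 : φ0 (j (FreeGroup.of i0) • x0) - φ0 x0 ≠ 0 := by
    simp only [φ0]
    rw [Pi.single_eq_of_ne hi0, Pi.single_eq_same, zero_sub]
    exact neg_ne_zero.2 one_ne_zero
  -- the Fox derivatives
  choose D hD hDv using fun i : α => exists_der (p := p)
    (fun l : α => if l = i then (Finsupp.single 1 1 : FreeGroup α →₀ ZMod p) else 0)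
  obtain ⟨W, _, _, hWf, Y, e, m, hei, heY, hem⟩ := overmodule g hinj D hD hDv A Z (Pi.single i0 φ0)
  have heYf : ∀ (f : FreeGroup α) (v : A), (ract Y f).unop (e v) = e ((ract Z f).unop v) :=
    fun f => LC_map Y Z e heY f
  have hVf : Finite (Module.Dual k W) := Module.finite_of_finite k
  have hNf : Finite (DN p W) := hVf
  have hNaut : Finite (MulAut (DN p W)) :=
    Finite.of_injective (fun e : MulAut (DN p W) => (e : DN p W → DN p W))
      (fun e e' h => MulEquiv.ext (fun x => congrFun h x))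
  have hEf : Finite (SE p W) := Finite.of_equiv _ (SemidirectProduct.equivProd).symm
  obtain ⟨r, hr⟩ := LinearMap.exists_leftInverse_of_injective e (LinearMap.ker_eq_bot.2 hei)
  have hre : ∀ v, r (e v) = v := fun v => LinearMap.congr_fun hr v
  -- the derivation with values in the dual of `A`
  let cb : G → Module.Dual k A := fun h =>
    (LinearMap.proj (h • x0) : A →ₗ[k] k) - (LinearMap.proj x0 : A →ₗ[k] k)
  have hcb : ∀ h (φ : A), cb h φ = φ (h • x0) - φ x0 := fun h φ => rfl
  let ρ : FreeGroup α →* MulAut (DN p W) := dact Y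
  -- the subgroup `K0` and its normalizer
  let K0 : Subgroup (SE p W) :=
    { carrier := {x | x.right = 1 ∧ ∀ v : A, Multiplicative.toAdd x.left (e v) = 0}
      one_mem' := ⟨rfl, fun v => rfl⟩
      mul_mem' := by
        rintro x y ⟨hx1, hx2⟩ ⟨hy1, hy2⟩
        refine ⟨by rw [SemidirectProduct.mul_right, hx1, hy1, one_mul], fun v => ?_⟩
        rw [SemidirectProduct.mul_left, hx1, map_one, MulAut.one_apply, toAdd_mul,
          LinearMap.add_apply, hx2, hy2, add_zero]
      inv_mem' := by
        rintro x ⟨hx1, hx2⟩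
        refine ⟨by rw [SemidirectProduct.inv_right, hx1, inv_one], fun v => ?_⟩
        rw [SemidirectProduct.inv_left, hx1, inv_one, map_one, MulAut.one_apply, toAdd_inv,
          LinearMap.neg_apply, hx2, neg_zero] }
  have hK0 : ∀ x, x ∈ K0 ↔ x.right = 1 ∧ ∀ v : A, Multiplicative.toAdd x.left (e v) = 0 :=
    fun x => Iff.rfl
  have hnorm : ∀ (c : DN p W) (f : FreeGroup α), (⟨c, ρ f⟩ : SE p W) ∈ Subgroup.normalizer (K0 : Set (SE p W)) := by
    intro c f
    rw [Subgroup.mem_normalizer_iff]
    intro x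
    rw [hK0, hK0]
    have e1 : ((⟨c, ρ f⟩ : SE p W) * x * (⟨c, ρ f⟩ : SE p W)⁻¹).right = 1 ↔ x.right = 1 := by
      rw [SemidirectProduct.mul_right, SemidirectProduct.mul_right, SemidirectProduct.inv_right]
      change ρ f * x.right * (ρ f)⁻¹ = 1 ↔ _
      rw [mul_inv_eq_one, mul_eq_left]
    rw [e1]
    refine and_congr_right fun hx => ?_
    have e2 : ((⟨c, ρ f⟩ : SE p W) * x * (⟨c, ρ f⟩ : SE p W)⁻¹).left = ρ f x.left := by
      rw [SemidirectProduct.mul_left, SemidirectProduct.mul_left, SemidirectProduct.mul_right, hx,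
        mul_one, SemidirectProduct.inv_left]
      change c * (ρ f) x.left * (ρ f) ((ρ f)⁻¹ c⁻¹) = _
      rw [MulAut.apply_inv_self, mul_comm c, mul_inv_cancel_right]
    rw [e2]
    have e3 : ∀ v : A, Multiplicative.toAdd (ρ f x.left) (e v) =
        Multiplicative.toAdd x.left (e ((ract Z f).unop v)) := by
      intro v
      rw [← heYf]
      rfl
    constructor
    · intro h v
      rw [e3, h]
    · intro h v
      obtain ⟨v', rfl⟩ := (ract Z f).unop.surjective v
      rw [← e3, h]
  let P := Subgroup.normalizer (K0 : Set (SE p W))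
  have hPf : Finite P := inferInstance
  let C0 : α → DN p W := fun i => Multiplicative.ofAdd (cb (j (FreeGroup.of i)) ∘ₗ r)
  let σF : FreeGroup α →* P := FreeGroup.lift (fun i => ⟨⟨1, ρ (FreeGroup.of i)⟩, hnorm _ _⟩)
  let τF : FreeGroup α →* P := FreeGroup.lift (fun i => ⟨⟨C0 i, ρ (FreeGroup.of i)⟩, hnorm _ _⟩)
  let σE : FreeGroup α →* SE p W := P.subtype.comp σF
  let τE : FreeGroup α →* SE p W := P.subtype.comp τF
  have hσE : ∀ f, σE f = ⟨1, ρ f⟩ := by
    have : σE = SemidirectProduct.inr.comp ρ := by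
      apply FreeGroup.ext_hom
      intro i
      change ((σF (FreeGroup.of i) : P) : SE p W) = _
      simp only [σF]
      rw [FreeGroup.lift_apply_of]
      rfl
    intro f
    rw [this]
    rfl
  have hτEr : ∀ f, (τE f).right = dact Y f := by
    have : SemidirectProduct.rightHom.comp τE = ρ := by
      apply FreeGroup.ext_hom
      intro i
      change ((τF (FreeGroup.of i) : P) : SE p W).right = _
      simp only [τF]
      rw [FreeGroup.lift_apply_of]
    intro f
    exact DFunLike.congr_fun this f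
  have hτEo : ∀ i, (τE (FreeGroup.of i)).left = C0 i := by
    intro i
    change ((τF (FreeGroup.of i) : P) : SE p W).left = _
    simp only [τF]
    rw [FreeGroup.lift_apply_of]
  have hτEl : ∀ (f : FreeGroup α) (v : A),
      Multiplicative.toAdd (τE f).left (e v) = v (j f • x0) - v x0 := by
    intro f
    induction f using FreeGroup.induction_on with
    | C1 =>
      intro v
      rw [coc_one, map_one, one_smul, sub_self]
    | of i =>
      intro v
      rw [hτEo]
      change cb (j (FreeGroup.of i)) (r (e v)) = _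
      rw [hre, hcb]
    | inv_of i ih =>
      intro v
      rw [coc_inv hτEr, heYf, ih, hZf, hZf, neg_sub]
      rw [← mul_smul, ← map_mul, inv_mul_cancel, map_one, one_smul]
    | mul a b ha hb =>
      intro v
      rw [coc_mul hτEr, ha, heYf, hb, hZf, hZf, map_mul, mul_smul]
      ring
  obtain ⟨σ, hσ, hσo⟩ := hj P σF
  obtain ⟨τ0, hτ0, hτ0o⟩ := hj P τF
  let q : P →* P ⧸ K0.subgroupOf P := QuotientGroup.mk' (K0.subgroupOf P)
  have hq : ∀ x y : P, q x = q y ↔ (x : SE p W)⁻¹ * y ∈ K0 := by
    intro x y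
    change (QuotientGroup.mk x : P ⧸ K0.subgroupOf P) = QuotientGroup.mk y ↔ _
    rw [QuotientGroup.eq, Subgroup.mem_subgroupOf]
    rfl
  have hqe : ∀ x y : P, q x = q y → (x : SE p W).right = (y : SE p W).right ∧
      ((∃ f, (x : SE p W).right = ρ f) → ∀ v : A, Multiplicative.toAdd (x : SE p W).left (e v) =
        Multiplicative.toAdd (y : SE p W).left (e v)) := by
    intro x y h
    rw [hq] at h
    obtain ⟨h1, h2⟩ := h
    have h3 : (x : SE p W).right = (y : SE p W).right := by
      rw [SemidirectProduct.mul_right, SemidirectProduct.inv_right, inv_mul_eq_one] at h1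
      exact h1
    refine ⟨h3, ?_⟩
    rintro ⟨f, hf⟩ v
    have h4 := h2 ((ract Z f).unop v)
    have e1 : ((x : SE p W)⁻¹ * y).left = (ρ f)⁻¹ ((x : SE p W).left⁻¹ * (y : SE p W).left) := by
      rw [SemidirectProduct.mul_left, SemidirectProduct.inv_left, SemidirectProduct.inv_right, hf]
      change (ρ f)⁻¹ _ * (ρ f)⁻¹ _ = _
      rw [map_mul]
    have e3 : ∀ (c : DN p W) (v : A), Multiplicative.toAdd ((ρ f)⁻¹ c) (e ((ract Z f).unop v)) =
        Multiplicative.toAdd c (e v) := by
      intro c v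
      have : c = ρ f ((ρ f)⁻¹ c) := by rw [MulAut.apply_inv_self]
      conv_rhs => rw [this]
      rw [← heYf]
      rfl
    rw [e1, e3, toAdd_mul, toAdd_inv, LinearMap.add_apply, LinearMap.neg_apply,
      neg_add_eq_zero] at h4
    exact h4
  have hστ : ∀ l ∈ 𝒢.stab t, q (σ l) = q (τ0 l) := by
    intro l hl
    -- approximate `l` by an element of the free group
    have hU : IsOpen ((fun y => l⁻¹ * y) ⁻¹' ((σ.ker : Set G) ∩ (τ0.ker : Set G) ∩ (G₁ : Set G))) :=
      ((hσo.inter hτ0o).inter hG₁o).preimage (continuous_const_mul _)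
    obtain ⟨y, hy, f, rfl⟩ := mem_closure_iff.1 (hd l) _ hU (by
      rw [Set.mem_preimage, inv_mul_cancel]
      exact ⟨⟨one_mem σ.ker, one_mem τ0.ker⟩, one_mem G₁⟩)
    obtain ⟨⟨h1, h2⟩, h3⟩ := hy
    have h1' : σ l = σ (j f) := by
      have : σ (l⁻¹ * j f) = 1 := h1
      rw [map_mul, map_inv, inv_mul_eq_one] at this
      exact this
    have h2' : τ0 l = τ0 (j f) := by
      have : τ0 (l⁻¹ * j f) = 1 := h2
      rw [map_mul, map_inv, inv_mul_eq_one] at this
      exact this
    have h3' : j f ∈ G₁ := by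
      have : l⁻¹ * j f ∈ G₁ := h3
      have h4 := G₁.mul_mem (hG₁ hl) this
      rwa [mul_inv_cancel_left] at h4
    rw [h1', h2', hσ, hτ0, hq, hK0]
    have e1 : ((σF f : P) : SE p W) = ⟨1, ρ f⟩ := hσE f
    have e2 : ((τF f : P) : SE p W).right = ρ f := hτEr f
    rw [e1]
    constructor
    · rw [SemidirectProduct.mul_right, SemidirectProduct.inv_right, e2]
      exact inv_mul_cancel _
    · intro v
      rw [SemidirectProduct.mul_left, SemidirectProduct.inv_left, SemidirectProduct.inv_right]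
      change Multiplicative.toAdd ((ρ f)⁻¹ (1 : DN p W)⁻¹ * (ρ f)⁻¹ (τE f).left) (e v) = 0
      rw [inv_one, map_one, one_mul]
      obtain ⟨v', rfl⟩ := (ract Z f).unop.surjective v
      have e3 : ∀ (c : DN p W) (v : A), Multiplicative.toAdd ((ρ f)⁻¹ c) (e ((ract Z f).unop v)) =
          Multiplicative.toAdd c (e v) := by
        intro c v
        have : c = ρ f ((ρ f)⁻¹ c) := by rw [MulAut.apply_inv_self]
        conv_rhs => rw [this]
        rw [← heYf]
        rfl
      rw [e3, hτEl, (hx0 _).2 h3', sub_self]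
  obtain ⟨τ, hτ1, hτ2⟩ := ext2 𝒢 h𝒢 t q σ τ0 hσo hτ0o hστ
  let τ' : FreeGroup α →* SE p W := P.subtype.comp (τ.comp j)
  have hτ'r : ∀ f, (τ' f).right = dact Y f := by
    intro f
    have h1 := (hqe _ _ (hτ1 (j f))).1
    change ((τ (j f) : P) : SE p W).right = _
    rw [h1, hτ0]
    exact hτEr f
  have hτ'l : ∀ (f : FreeGroup α) (v : A), Multiplicative.toAdd (τ' f).left (e v) =
      v (j f • x0) - v x0 := by
    intro f v
    have h1 := (hqe _ _ (hτ1 (j f))).2 ⟨f, hτ'r f⟩ v
    change Multiplicative.toAdd ((τ (j f) : P) : SE p W).left (e v) = _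
    rw [h1, hτ0]
    exact hτEl f v
  have hτ'g : (τ' g).left = 1 := by
    have h1 := hτ2 (j g) hg
    change ((τ (j g) : P) : SE p W).left = 1
    rw [h1, hσ]
    have e1 : ((σF g : P) : SE p W) = ⟨1, ρ g⟩ := hσE g
    rw [e1]
  have hfin := coc_fox hτ'r D hD hDv g m
  rw [hτ'g, toAdd_one, LinearMap.zero_apply, Finset.sum_eq_single i0] at hfin
  · rw [hem, Pi.single_eq_same, hτ'l] at hfin
    exact hφ0 hfin.symm
  · intro i _ hi
    rw [hem, Pi.single_eq_of_ne hi, map_zero, map_zero]
  · intro h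
    exact absurd (Finset.mem_univ i0) h

end Pool.Agent.P8H64.Pile
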